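import Pool.Agent.Shell.Final

set_option autoImplicit false

namespace Pool.Agent.Results.MP_a8759f_co.Nonshellable

open Pool.Agent.Shell

universe u v

/-- Every space triangulated by a finite simplicial complex of dimension at least three has a
nonshellable triangulation. -/
theorem result {X : Type u} [TopologicalSpace X] {V : Type v} (Δ : FinComplex V)
    (hX : Nonempty (Δ.realization ≃ₜ X)) (hdim : ∃ s ∈ Δ.faces, 4 ≤ s.card) :
    ∃ (W : Type v) (Δ' : FinComplex W), Nonempty (Δ'.realization ≃ₜ X) ∧ ¬ Δ'.Shellable := by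
  obtain ⟨Δ', ⟨g⟩, hns⟩ := main Δ hdim
  obtain ⟨e⟩ := hX
  exact ⟨_, Δ', ⟨g.trans e⟩, hns⟩

end Pool.Agent.Results.MP_a8759f_co.Nonshellable
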